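import Pool.Agent.Zk70.Sc.Tran

/-! # Cohen forcing and winning strategies of II in the `k`-Rothberger game on compact spaces -/

namespace Pool.Agent.Results.MP_e0f6ac_lc.KRothbergerIffScattered

open Pool.Agent.Helper669.Forcing
open Pool.Agent.V11244.CohGame
open Pool.Agent.V11244.CohCore (Coh)
open Pool.Agent.Zk70.Sc

universe u v

/-- Cohen forcing `Coh` is strongly proper for stationarily many models and the Cantor space is a
compact Hausdorff space which is not scattered. Let `X` be any compact Hausdorff space. Then II
has a winning strategy in the `k`-Rothberger game on `X`. If `X` is not scattered, then all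
conditions of `Coh` force that II has no winning strategy in the `k`-Rothberger game, and none in
the `k`-Menger game, on `X` with the ground model topology as a base, even if I plays only
`k`-covers by ground model open sets. If `X` is scattered, then all conditions of all forcings
force that II has a winning strategy in these two games. -/
theorem result :
    StronglyProper Coh ∧ ¬ Scattered (ℕ → Bool) ∧
    ∀ (X : Type v) [TopologicalSpace X] [CompactSpace X] [T2Space X],
      IIWinsOne (KCovers X) (KCovers X) ∧
      (¬ Scattered X → ∀ p : Coh,
        p ∈ fnot (fIIWinsOne (P := Coh) (X := X) fKCover fKCover) ∧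
        p ∈ fnot (fIIWinsFin (P := Coh) (X := X) fKCover fKCover)) ∧
      (Scattered X → ∀ (P : Type u) [Preorder P] (p : P),
        p ∈ fIIWinsOne (P := P) (X := X) fKCover fKCover ∧
        p ∈ fIIWinsFin (P := P) (X := X) fKCover fKCover) :=
  ⟨stronglyProper_of_countable, not_scattered_cantor, fun _ _ _ _ =>
    ⟨winsOne_of_compact, fun h p => ⟨noOne_of_not_scattered h p, noFin_of_not_scattered h p⟩,
      fun h _ _ p => ⟨winsOne_of_scattered h p, winsFin_of_scattered h p⟩⟩⟩

end Pool.Agent.Results.MP_e0f6ac_lc.KRothbergerIffScattered
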